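import Pool.Agent.H377Z.Ent.Proof

set_option autoImplicit false

namespace Pool.Agent.Results.MP_827700_an.UpperContinuity

open MeasureTheory Pool.Agent.H377Z.Ent

universe u v

/-- The algebraic entropy of a continuous endomorphism of a locally compact Hausdorff abelian
group is the supremum of the entropies of its restrictions to the members of any directed family
of closed invariant subgroups whose union is dense (in particular: whose union is the group). -/
theorem result {G : Type u} [AddCommGroup G] [TopologicalSpace G] [IsTopologicalAddGroup G]
    [LocallyCompactSpace G] [T2Space G] [MeasurableSpace G] [BorelSpace G]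
    (μ : Measure G) [μ.IsAddHaarMeasure] (φ : G →+ G) (hφ : Continuous φ)
    {I : Type v} (K : I → AddSubgroup G) (hclosed : ∀ i, IsClosed (K i : Set G))
    (hinv : ∀ i, ∀ x ∈ K i, φ x ∈ K i) (hdir : Directed (· ≤ ·) K)
    (hdense : Dense (⋃ i, (K i : Set G)))
    (ν : ∀ i, Measure (K i)) [∀ i, (ν i).IsAddHaarMeasure] :
    ent μ φ = ⨆ i, ent (ν i) (restr φ (K i) (hinv i)) :=
  upper_continuous μ hφ K hclosed hinv hdir hdense ν

end Pool.Agent.Results.MP_827700_an.UpperContinuity
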